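import Pool.Agent.W715.VC.TrPow

/-!
Matrices whose powers have small traces: the `N`-th power is nearly a scalar (Newton's identities).
-/

set_option autoImplicit false

open Finset Matrix Polynomial

namespace Run7.h280.QW

/-- the elementary symmetric functions -/
noncomputable def es {N : ℕ} (v : Fin N → ℂ) (j : ℕ) : ℂ := (univ.val.map v).esymm j

theorem newton {N : ℕ} (v : Fin N → ℂ) (j : ℕ) :
    (j : ℂ) * es v j = (-1) ^ (j + 1) *
      ∑ a ∈ antidiagonal j with a.1 < j, (-1) ^ a.1 * es v a.1 * ∑ i, v i ^ a.2 := by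
  have h := congrArg (MvPolynomial.aeval v)
    (MvPolynomial.mul_esymm_eq_sum (σ := Fin N) (R := ℂ) j)
  simp only [map_mul, map_natCast, map_pow, map_neg, map_one, map_sum,
    MvPolynomial.aeval_esymm_eq_multiset_esymm, MvPolynomial.psum, MvPolynomial.aeval_X] at h
  exact h

theorem es_bound {N : ℕ} (v : Fin N → ℂ) (h : ∀ j, 0 < j → j < N → ‖∑ i, v i ^ j‖ ≤ N) (j : ℕ)
    (hj : j < N) : ‖es v j‖ ≤ (2 * N + 1 : ℝ) ^ j := by
  induction j using Nat.strong_induction_on with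
  | _ j ih =>
    rcases Nat.eq_zero_or_pos j with rfl | hj0
    · simp [es, Multiset.esymm, Multiset.powersetCard_zero_left]
    have h1 := congrArg norm (newton v j)
    rw [norm_mul, norm_mul, norm_pow, norm_neg, norm_one, one_pow, one_mul,
      Complex.norm_natCast] at h1
    have hB : (1 : ℝ) ≤ 2 * N + 1 := by
      have : (0 : ℝ) ≤ N := Nat.cast_nonneg _
      linarith
    have h2 : ‖∑ a ∈ antidiagonal j with a.1 < j, (-1) ^ a.1 * es v a.1 * ∑ i, v i ^ a.2‖ ≤
        ∑ a ∈ antidiagonal j with a.1 < j, (2 * N + 1 : ℝ) ^ (j - 1) * N := by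
      refine (norm_sum_le _ _).trans (Finset.sum_le_sum fun a ha => ?_)
      rw [Finset.mem_filter, HasAntidiagonal.mem_antidiagonal] at ha
      rw [norm_mul, norm_mul, norm_pow, norm_neg, norm_one, one_pow, one_mul]
      refine mul_le_mul ((ih a.1 ha.2 (by omega)).trans (pow_le_pow_right₀ hB (by omega)))
        (h a.2 (by omega) (by omega)) (norm_nonneg _) (by positivity)
    have h3 : (#{a ∈ antidiagonal j | a.1 < j} : ℝ) ≤ 2 * j := by
      have h4 : #{a ∈ antidiagonal j | a.1 < j} ≤ j + 1 := by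
        refine (Finset.card_filter_le _ _).trans ?_
        rw [Nat.card_antidiagonal]
      have h5 : #{a ∈ antidiagonal j | a.1 < j} ≤ 2 * j := by omega
      exact_mod_cast h5
    rw [Finset.sum_const, nsmul_eq_mul] at h2
    have hj' : (0 : ℝ) < j := by exact_mod_cast hj0
    have h6 : (j : ℝ) * ‖es v j‖ ≤ 2 * j * ((2 * N + 1 : ℝ) ^ (j - 1) * N) := by
      rw [h1]
      exact h2.trans (mul_le_mul_of_nonneg_right h3 (by positivity))
    have h7 : (j : ℝ) * ‖es v j‖ ≤ j * (2 * N + 1 : ℝ) ^ j := by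
      refine h6.trans ?_
      obtain ⟨i, rfl⟩ := Nat.exists_eq_add_of_lt hj0
      simp only [zero_add, Nat.add_sub_cancel]
      have h8 : (0 : ℝ) ≤ (2 * N + 1 : ℝ) ^ i := by positivity
      have h9 : (0 : ℝ) ≤ ((i + 1 : ℕ) : ℝ) := Nat.cast_nonneg _
      rw [pow_succ]
      nlinarith [mul_nonneg h9 h8]
    exact le_of_mul_le_mul_left h7 hj'

theorem es_small {N : ℕ} (v : Fin N → ℂ) (h : ∀ j, 0 < j → j < N → ‖∑ i, v i ^ j‖ ≤ N) (s : ℝ)
    (hs : 0 ≤ s) (h' : ∀ j, 0 < j → j < N → ‖∑ i, v i ^ j‖ ≤ s) (j : ℕ) (hj0 : 0 < j)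
    (hj : j < N) : ‖es v j‖ ≤ 2 * (2 * N + 1 : ℝ) ^ N * s := by
  have h1 := congrArg norm (newton v j)
  rw [norm_mul, norm_mul, norm_pow, norm_neg, norm_one, one_pow, one_mul,
    Complex.norm_natCast] at h1
  have hB : (1 : ℝ) ≤ 2 * N + 1 := by
    have : (0 : ℝ) ≤ N := Nat.cast_nonneg _
    linarith
  have h2 : ‖∑ a ∈ antidiagonal j with a.1 < j, (-1) ^ a.1 * es v a.1 * ∑ i, v i ^ a.2‖ ≤
      ∑ a ∈ antidiagonal j with a.1 < j, (2 * N + 1 : ℝ) ^ N * s := by
    refine (norm_sum_le _ _).trans (Finset.sum_le_sum fun a ha => ?_)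
    rw [Finset.mem_filter, HasAntidiagonal.mem_antidiagonal] at ha
    rw [norm_mul, norm_mul, norm_pow, norm_neg, norm_one, one_pow, one_mul]
    refine mul_le_mul ((es_bound v h a.1 (by omega)).trans (pow_le_pow_right₀ hB (by omega)))
      (h' a.2 (by omega) (by omega)) (norm_nonneg _) (by positivity)
  have h3 : (#{a ∈ antidiagonal j | a.1 < j} : ℝ) ≤ 2 * j := by
    have h4 : #{a ∈ antidiagonal j | a.1 < j} ≤ j + 1 := by
      refine (Finset.card_filter_le _ _).trans ?_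
      rw [Nat.card_antidiagonal]
    have h5 : #{a ∈ antidiagonal j | a.1 < j} ≤ 2 * j := by omega
    exact_mod_cast h5
  rw [Finset.sum_const, nsmul_eq_mul] at h2
  have hj' : (0 : ℝ) < j := by exact_mod_cast hj0
  have h6 : (j : ℝ) * ‖es v j‖ ≤ j * (2 * (2 * N + 1 : ℝ) ^ N * s) := by
    rw [h1]
    refine (h2.trans (mul_le_mul_of_nonneg_right h3 (by positivity))).trans (le_of_eq ?_)
    ring
  exact le_of_mul_le_mul_left h6 hj'

/-- the eigenvalues as a function -/
theorem exists_eig {N : ℕ} (A : Matrix (Fin N) (Fin N) ℂ) :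
    ∃ v : Fin N → ℂ, univ.val.map v = A.charpoly.roots := by
  obtain ⟨l, hl⟩ := Quot.exists_rep A.charpoly.roots
  have hc : l.length = N := by
    have h1 := Pool.Agent.W715.VC.card_roots' A
    rw [← hl, Fintype.card_fin] at h1
    exact h1
  refine ⟨fun i => l.get (i.cast hc.symm), ?_⟩
  rw [← hl, Fin.univ_val_map]
  show ((List.ofFn _ : List ℂ) : Multiset ℂ) = (l : Multiset ℂ)
  congr 1
  apply List.ext_get
  · simp [hc]
  · intro i h1 h2
    simp

theorem cayley {N : ℕ} (A : Matrix (Fin N) (Fin N) ℂ) (v : Fin N → ℂ)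
    (hv : univ.val.map v = A.charpoly.roots) :
    ∑ j ∈ range (N + 1), ((-1) ^ j * es v j) • A ^ (N - j) = 0 := by
  have h1 := Matrix.aeval_self_charpoly A
  rw [Pool.Agent.W715.VC.charpoly_prod A, ← hv, Multiset.prod_X_sub_X_eq_sum_esymm] at h1
  simp only [Multiset.card_map, Finset.card_val, Finset.card_univ, Fintype.card_fin] at h1
  rw [map_sum] at h1
  rw [← h1]
  refine Finset.sum_congr rfl fun j _ => ?_
  rw [Algebra.smul_def]
  simp only [map_mul, map_pow, map_neg, map_one, aeval_X, aeval_C, es, mul_assoc]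

theorem es_zero {N : ℕ} (v : Fin N → ℂ) : es v 0 = 1 := by
  rw [es, Finset.esymm_map_val, Finset.powersetCard_zero]
  simp

theorem es_card {N : ℕ} (v : Fin N → ℂ) : es v N = ∏ i, v i := by
  have h : Finset.powersetCard N (univ : Finset (Fin N)) = {univ} := by
    have := Finset.powersetCard_self (univ : Finset (Fin N))
    rwa [Finset.card_univ, Fintype.card_fin] at this
  rw [es, Finset.esymm_map_val, h, Finset.sum_singleton]

open scoped Matrix.Norms.Frobenius in
/-- the power of order `N` is nearly a scalar -/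
theorem pow_near {N : ℕ} (hN : 0 < N) (A : Matrix (Fin N) (Fin N) ℂ) (hdet : A.det = 1)
    (hb : ∀ m, ‖A ^ m‖ ≤ N) (htN : ∀ j, ‖trace (A ^ j)‖ ≤ N) (s : ℝ) (hs : 0 ≤ s)
    (ht : ∀ j, 0 < j → j < N → ‖trace (A ^ j)‖ ≤ s) :
    ‖A ^ N - ((-1) ^ (N + 1) : ℂ) • (1 : Matrix (Fin N) (Fin N) ℂ)‖ ≤
      2 * N ^ 2 * (2 * N + 1 : ℝ) ^ N * s := by
  obtain ⟨v, hv⟩ := exists_eig A
  have htr : ∀ j, j ≠ 0 → trace (A ^ j) = ∑ i, v i ^ j := by
    intro j hj
    rw [Pool.Agent.W715.VC.trace_pow A hj, ← hv, Multiset.map_map]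
    rfl
  have hc := cayley A v hv
  obtain ⟨M, rfl⟩ : ∃ M, N = M + 1 := ⟨N - 1, by omega⟩
  rw [Finset.sum_range_succ, Finset.sum_range_succ', es_zero, es_card] at hc
  have hd : ∏ i, v i = 1 := by
    rw [← hdet, Matrix.det_eq_prod_roots_charpoly, ← hv]
    rfl
  rw [hd] at hc
  simp only [pow_zero, mul_one, one_smul, Nat.sub_self, Nat.sub_zero] at hc
  have e1 : A ^ (M + 1) - ((-1) ^ (M + 1 + 1) : ℂ) • (1 : Matrix (Fin (M + 1)) (Fin (M + 1)) ℂ) =
      -∑ j ∈ range M, ((-1) ^ (j + 1) * es v (j + 1)) • A ^ (M + 1 - (j + 1)) := by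
    rw [eq_neg_iff_add_eq_zero, ← hc, pow_succ (-1 : ℂ) (M + 1)]
    rw [mul_neg_one, neg_smul, sub_neg_eq_add]
    abel
  rw [e1, norm_neg]
  refine (norm_sum_le _ _).trans ?_
  have h2 : ∀ j ∈ range M, ‖((-1) ^ (j + 1) * es v (j + 1)) • A ^ (M + 1 - (j + 1))‖ ≤
      2 * (2 * ((M + 1 : ℕ) : ℝ) + 1) ^ (M + 1) * s * ((M + 1 : ℕ) : ℝ) := by
    intro j hj
    rw [mem_range] at hj
    rw [norm_smul, norm_mul, norm_pow, norm_neg, norm_one, one_pow, one_mul]
    refine mul_le_mul (es_small v ?_ s hs ?_ (j + 1) (by omega) (by omega)) (hb _)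
      (norm_nonneg _) (by positivity)
    · intro i h1 _
      rw [← htr i (by omega)]
      exact htN i
    · intro i h1 h3
      rw [← htr i (by omega)]
      exact ht i h1 h3
  refine (Finset.sum_le_sum h2).trans ?_
  rw [Finset.sum_const, card_range, nsmul_eq_mul]
  have h3 : (M : ℝ) ≤ ((M + 1 : ℕ) : ℝ) := by
    push_cast
    linarith
  refine (mul_le_mul_of_nonneg_right h3 (by positivity)).trans (le_of_eq ?_)
  ring

end Run7.h280.QW
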