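import Pool.Agent.Run7.h105.QC.Q2
import Pool.Agent.Run7.h280.QW.Newt

/-!
The phases of the products of two dressings.
-/

set_option autoImplicit false

open Matrix
open scoped Matrix.Norms.Frobenius ComplexConjugate

namespace Run7.h280.QW

open Run7.h4.YM Run7.h630.MQ Run7.h630.QC Run7.h370.MQ Run7.h370.QC Run7.h105.QC

variable {N n L l : ℕ}

theorem tr_SU_le (g : SU N) : ‖trace g.1‖ ≤ N := by
  unfold trace
  refine (norm_sum_le _ _).trans ?_
  have h : ∀ i ∈ (Finset.univ : Finset (Fin N)), ‖g.1.diag i‖ ≤ 1 := fun i _ =>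
    entry_norm_bound_of_unitary (Matrix.mem_specialUnitaryGroup_iff.1 g.2).1 i i
  refine (Finset.sum_le_sum h).trans ?_
  rw [Finset.sum_const, Finset.card_univ, Fintype.card_fin, nsmul_eq_mul, mul_one]

/-- iteration of a conjugation -/
theorem iter {P Q : SU N} {z : ℂ} {r : ℝ} (hz : ‖z‖ = 1)
    (h : ‖(Q * P * Q⁻¹).1 - z • P.1‖ ≤ r) (b : ℕ) :
    ‖(Q ^ b * P * (Q ^ b)⁻¹).1 - z ^ b • P.1‖ ≤ b * r := by
  induction b with
  | zero => simp
  | succ b ih =>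
    have e1 : (Q ^ (b + 1) * P * (Q ^ (b + 1))⁻¹).1 - z ^ (b + 1) • P.1 =
        (Q ^ b).1 * ((Q * P * Q⁻¹).1 - z • P.1) * ((Q ^ b)⁻¹).1 +
        z • ((Q ^ b * P * (Q ^ b)⁻¹).1 - z ^ b • P.1) := by
      have e2 : Q ^ (b + 1) * P * (Q ^ (b + 1))⁻¹ = Q ^ b * (Q * P * Q⁻¹) * (Q ^ b)⁻¹ := by
        rw [pow_succ]
        group
      have e3 : (Q ^ b * (Q * P * Q⁻¹) * (Q ^ b)⁻¹).1 =
        (Q ^ b).1 * (Q * P * Q⁻¹).1 * ((Q ^ b)⁻¹).1 := rfl
      have e4 : (Q ^ b * P * (Q ^ b)⁻¹).1 = (Q ^ b).1 * P.1 * ((Q ^ b)⁻¹).1 := rfl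
      rw [e2, e3, e4, Matrix.mul_sub, Matrix.sub_mul, smul_sub, Matrix.mul_smul, Matrix.smul_mul,
        smul_smul, pow_succ' z b]
      abel
    rw [e1]
    refine (norm_add_le _ _).trans ?_
    rw [nru, nlu, norm_smul, hz, one_mul, Nat.cast_succ, add_mul, one_mul, add_comm]
    exact add_le_add ih h

/-- reduction of an exponent -/
theorem red [NeZero N] {Z : SU N} {c : ℂ} {δ : ℝ} (hδ : ‖(Z ^ N).1 - c • (1 : Mt N)‖ ≤ δ)
    (g h : SU N) (e : ℕ) (he : e < 2 * N) :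
    ‖trace (g.1 * (Z ^ e).1 * h.1) - c ^ (e / N) * trace (g.1 * (Z ^ (e % N)).1 * h.1)‖ ≤
      N * δ := by
  have hN : 0 < N := Nat.pos_of_neZero N
  have hδ0 : 0 ≤ δ := (norm_nonneg _).trans hδ
  rcases lt_or_ge e N with h1 | h1
  · rw [Nat.div_eq_of_lt h1, Nat.mod_eq_of_lt h1, pow_zero, one_mul, sub_self, norm_zero]
    positivity
  · have e1 : e / N = 1 := by
      rw [Nat.div_eq_iff hN]
      omega
    have e2 : e % N = e - N := by
      rw [Nat.mod_eq_sub_mod h1, Nat.mod_eq_of_lt (by omega)]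
    rw [e1, e2, pow_one]
    have e3 : (Z ^ e).1 = (Z ^ (e - N)).1 * (Z ^ N).1 := by
      have : Z ^ e = Z ^ (e - N) * Z ^ N := by
        rw [← pow_add, Nat.sub_add_cancel h1]
      rw [this]
      rfl
    have e4 : trace (g.1 * (Z ^ e).1 * h.1) - c * trace (g.1 * (Z ^ (e - N)).1 * h.1) =
        trace ((g * Z ^ (e - N)).1 * ((Z ^ N).1 - c • (1 : Mt N)) * h.1) := by
      have e5 : (g * Z ^ (e - N)).1 = g.1 * (Z ^ (e - N)).1 := rfl
      rw [e3, e5, Matrix.mul_sub, Matrix.sub_mul, trace_sub, Matrix.mul_smul, Matrix.smul_mul,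
        trace_smul, smul_eq_mul, Matrix.mul_one, ← Matrix.mul_assoc]
    rw [e4]
    refine (norm_tr_le _).trans ?_
    rw [nru, nlu]
    exact mul_le_mul_of_nonneg_left hδ (Nat.cast_nonneg _)

/-- the opposite colour -/
def ng' [NeZero N] (α : Col N) : Col N :=
  (⟨(N - α.1) % N, Nat.mod_lt _ (NeZero.pos N)⟩, ⟨(N - α.2) % N, Nat.mod_lt _ (NeZero.pos N)⟩)

/-- the phases -/
noncomputable def ch (N k : ℕ) [NeZero N] (α : Col N) : ℂ :=
  om N k ^ (((ng' α).1 : ℕ) * (α.2 : ℕ)) *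
    (((-1) ^ (N + 1) : ℂ) ^ (((α.1 : ℕ) + ((ng' α).1 : ℕ)) / N) *
      ((-1) ^ (N + 1) : ℂ) ^ (((α.2 : ℕ) + ((ng' α).2 : ℕ)) / N))

theorem ng_val1 [NeZero N] (α : Col N) : ((ng' α).1 : ℕ) = (N - α.1) % N := rfl

theorem ng_val2 [NeZero N] (α : Col N) : ((ng' α).2 : ℕ) = (N - α.2) % N := rfl

theorem neg_mod (_hN : 0 < N) (a : ℕ) (ha : a < N) :
    (a = 0 ∧ (N - a) % N = 0) ∨ (0 < a ∧ (N - a) % N = N - a) := by
  rcases Nat.eq_zero_or_pos a with rfl | h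
  · left
    simp
  · right
    exact ⟨h, Nat.mod_eq_of_lt (by omega)⟩

theorem ng_ng [NeZero N] (α : Col N) : ng' (ng' α) = α := by
  have hN : 0 < N := Nat.pos_of_neZero N
  have h : ∀ a : ℕ, a < N → (N - (N - a) % N) % N = a := by
    intro a ha
    rcases neg_mod hN a ha with ⟨h1, h2⟩ | ⟨h1, h2⟩
    · rw [h2, h1]
      simp
    · rw [h2, Nat.sub_sub_self ha.le, Nat.mod_eq_of_lt ha]
  exact Prod.ext (Fin.ext (h _ α.1.2)) (Fin.ext (h _ α.2.2))

theorem ch_norm [NeZero N] (k : ℕ) (α : Col N) : ‖ch N k α‖ = 1 := by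
  unfold ch
  rw [norm_mul, norm_mul, norm_pow, norm_om, one_pow, norm_pow, norm_pow, norm_pow, norm_neg,
    norm_one]
  simp

theorem ch_ng [NeZero N] (k : ℕ) (α : Col N) : ch N k (ng' α) = ch N k α := by
  have hN : 0 < N := Nat.pos_of_neZero N
  unfold ch
  rw [ng_ng, add_comm ((ng' α).1 : ℕ), add_comm ((ng' α).2 : ℕ)]
  congr 1
  have ha := neg_mod hN _ α.1.2
  have hb := neg_mod hN _ α.2.2
  rw [ng_val1, ng_val2]
  rcases ha with ⟨h1, h2⟩ | ⟨h1, h2⟩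
  · rw [h2, h1]
    simp
  · rcases hb with ⟨h3, h4⟩ | ⟨h3, h4⟩
    · rw [h4, h3]
      simp
    · rw [h2, h4]
      have hw : om N k ^ N = 1 := om_pow k
      have hne : om N k ^ ((α.1 : ℕ) * (α.2 : ℕ)) ≠ 0 := by
        apply pow_ne_zero
        intro h
        have := norm_om N k
        rw [h, norm_zero] at this
        exact zero_ne_one this
      apply mul_right_cancel₀ hne
      have e1 : (α.1 : ℕ) * (N - (α.2 : ℕ)) + (α.1 : ℕ) * (α.2 : ℕ) = N * (α.1 : ℕ) := by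
        rw [← Nat.mul_add, Nat.sub_add_cancel α.2.2.le, mul_comm]
      have e2 : (N - (α.1 : ℕ)) * (α.2 : ℕ) + (α.1 : ℕ) * (α.2 : ℕ) = N * (α.2 : ℕ) := by
        rw [← Nat.add_mul, Nat.sub_add_cancel α.1.2.le]
      rw [← pow_add, ← pow_add, e1, e2, pow_mul, pow_mul, hw, one_pow, one_pow]

theorem core (N k : ℕ) [NeZero N] (hk : Nat.Coprime k N) : ∃ C : ℝ, ∃ p : ℕ, 0 < C ∧
    ∀ (n L l : ℕ) [NeZero n] [NeZero L] [NeZero l] (q : ZMod n × ZMod L → ZMod N)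
      (U : Link n L l → SU N) (α α' : Col N) (x : Site n L l),
      ‖trace ((Dr α U x).1 * (Dr α' U x).1) - (if α' = ng' α then N * ch N k α else 0)‖ ≤
        C * l ^ p * ss k q U := by
  have hN : 0 < N := Nat.pos_of_neZero N
  have hN' : (0 : ℝ) < N := by exact_mod_cast hN
  obtain ⟨C₂, p₂, hC₂, hQ2⟩ := t_Q2 t_Q1 N
  refine ⟨2 * N ^ 3 + 4 * N ^ 3 * (2 * N + 1) ^ N * C₂ + C₂, p₂ + 2, by positivity, ?_⟩
  intro n L l _ _ _ q U α α' x
  have hs := ss_nonneg k q U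
  have hl : (1 : ℝ) ≤ l := by exact_mod_cast Nat.pos_of_neZero l
  set P := lp U x with hP
  set Q := lq U x with hQ
  set r : ℝ := l * (2 * N * l * ss k q U) with hr
  set s : ℝ := C₂ * l ^ p₂ * ss k q U with hsd
  have hs0 : 0 ≤ s := by positivity
  have hr0 : 0 ≤ r := by positivity
  -- the traces
  have hD : ∀ β : Col N, Dr β U x = P ^ (β.1 : ℕ) * Q ^ (β.2 : ℕ) := fun β => rfl
  have htr : ∀ c d : ℕ, c < N → d < N → ¬ (c = 0 ∧ d = 0) → ‖trace ((P ^ c).1 * (Q ^ d).1)‖ ≤ s := by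
    intro c d hc hd hcd
    have h1 := hQ2 n L l k hk q U (⟨c, hc⟩, ⟨d, hd⟩) (⟨0, hN⟩, ⟨0, hN⟩) x (by
      intro h
      apply hcd
      have h2 := Prod.ext_iff.1 h
      exact ⟨Fin.ext_iff.1 h2.1, Fin.ext_iff.1 h2.2⟩)
    rw [hD, hD] at h1
    have e1 : (P ^ ((((⟨0, hN⟩, ⟨0, hN⟩) : Col N)).1 : ℕ) *
        Q ^ ((((⟨0, hN⟩, ⟨0, hN⟩) : Col N)).2 : ℕ)).1ᴴ = 1 := by
      simp
    rw [e1, Matrix.mul_one] at h1
    exact h1
  have hcoe : ∀ (Z : SU N) (j : ℕ), Z.1 ^ j = (Z ^ j).1 := fun Z j => rfl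
  have hδ : ∀ Z : SU N, (∀ j, 0 < j → j < N → ‖trace (Z ^ j).1‖ ≤ s) →
      ‖(Z ^ N).1 - ((-1) ^ (N + 1) : ℂ) • (1 : Mt N)‖ ≤ 2 * N ^ 2 * (2 * N + 1 : ℝ) ^ N * s := by
    intro Z hZ
    exact pow_near hN Z.1 (Matrix.mem_specialUnitaryGroup_iff.1 Z.2).2
      (fun m => norm_SU_le (Z ^ m)) (fun j => tr_SU_le (Z ^ j)) s hs0 hZ
  have hPN := hδ P (fun j h1 h2 => by
    have := htr j 0 h2 hN (by omega)
    simpa using this)
  have hQN := hδ Q (fun j h1 h2 => by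
    have := htr 0 j hN h2 (by omega)
    simpa using this)
  set δ : ℝ := 2 * N ^ 2 * (2 * N + 1 : ℝ) ^ N * s with hδd
  have hδ0 : 0 ≤ δ := by positivity
  -- the conjugation
  have h1 : ∀ a b : ℕ, a < N → b < N →
      ‖(Q ^ b * P ^ a * (Q ^ b)⁻¹).1 - (om N k ^ a) ^ b • (P ^ a).1‖ ≤ N * r := by
    intro a b ha hb
    have h2 := around3 k q U (⟨a, ha⟩, ⟨0, hN⟩) x
    rw [hD] at h2
    simp only [pow_zero, mul_one] at h2
    have h3 := iter (by rw [norm_pow, norm_om, one_pow]) h2 b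
    refine h3.trans ?_
    have : (b : ℝ) ≤ N := by exact_mod_cast hb.le
    exact mul_le_mul_of_nonneg_right this hr0
  set a : ℕ := α.1.val with ha
  set b : ℕ := α.2.val with hb
  set a' : ℕ := α'.1.val with ha'
  set b' : ℕ := α'.2.val with hb'
  have haN : a < N := α.1.2
  have hbN : b < N := α.2.2
  have haN' : a' < N := α'.1.2
  have hbN' : b' < N := α'.2.2
  have e1 : trace ((Dr α U x).1 * (Dr α' U x).1) =
      trace ((P ^ a).1 * ((Q ^ b * P ^ a' * (Q ^ b)⁻¹).1 - (om N k ^ a') ^ b • (P ^ a').1) *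
        (Q ^ (b + b')).1) +
      (om N k ^ a') ^ b * trace ((P ^ (a + a')).1 * (Q ^ (b + b')).1) := by
    have e2 : (Dr α U x).1 * (Dr α' U x).1 =
        (P ^ a).1 * (Q ^ b * P ^ a' * (Q ^ b)⁻¹).1 * (Q ^ (b + b')).1 := by
      have e3 : Dr α U x * Dr α' U x = P ^ a * (Q ^ b * P ^ a' * (Q ^ b)⁻¹) * Q ^ (b + b') := by
        have hDa : Dr α U x = P ^ a * Q ^ b := rfl
        have hDa' : Dr α' U x = P ^ a' * Q ^ b' := rfl
        rw [hDa, hDa', pow_add Q b b']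
        simp only [mul_assoc, inv_mul_cancel_left]
      have e4 : (Dr α U x).1 * (Dr α' U x).1 = (Dr α U x * Dr α' U x).1 := rfl
      rw [e4, e3]
      rfl
    have e5 : (P ^ (a + a')).1 = (P ^ a).1 * (P ^ a').1 := by
      rw [pow_add]
      rfl
    rw [e2, e5, Matrix.mul_sub, Matrix.sub_mul, trace_sub, Matrix.mul_smul, Matrix.smul_mul,
      trace_smul, smul_eq_mul]
    ring
  have e2 : ‖trace ((P ^ a).1 * ((Q ^ b * P ^ a' * (Q ^ b)⁻¹).1 -
      (om N k ^ a') ^ b • (P ^ a').1) * (Q ^ (b + b')).1)‖ ≤ N * (N * r) := by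
    refine (norm_tr_le _).trans ?_
    rw [nru, nlu]
    exact mul_le_mul_of_nonneg_left (h1 a' b haN' hbN) (Nat.cast_nonneg _)
  have hone : ∀ g : SU N, (1 : SU N).1 * g.1 = g.1 := fun g => Matrix.one_mul _
  have e3 : ‖trace ((P ^ (a + a')).1 * (Q ^ (b + b')).1) -
      ((-1) ^ (N + 1) : ℂ) ^ ((a + a') / N) *
        trace ((P ^ ((a + a') % N)).1 * (Q ^ (b + b')).1)‖ ≤ N * δ := by
    have := red hPN 1 (Q ^ (b + b')) (a + a') (by omega)
    rwa [hone, hone] at this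
  have e4 : ‖trace ((P ^ ((a + a') % N)).1 * (Q ^ (b + b')).1) -
      ((-1) ^ (N + 1) : ℂ) ^ ((b + b') / N) *
        trace ((P ^ ((a + a') % N)).1 * (Q ^ ((b + b') % N)).1)‖ ≤ N * δ := by
    have := red hQN (P ^ ((a + a') % N)) 1 (b + b') (by omega)
    have hone' : ∀ g : Mt N, g * (1 : SU N).1 = g := fun g => Matrix.mul_one _
    rwa [hone', hone'] at this
  have hsg : ∀ j : ℕ, ‖((-1) ^ (N + 1) : ℂ) ^ j‖ = 1 := fun j => by
    rw [norm_pow, norm_pow, norm_neg, norm_one, one_pow, one_pow]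
  have hw : ‖(om N k ^ a') ^ b‖ = 1 := by
    rw [norm_pow, norm_pow, norm_om, one_pow, one_pow]
  -- the main estimate
  have hmain : ‖trace ((Dr α U x).1 * (Dr α' U x).1) - (om N k ^ a') ^ b *
      (((-1) ^ (N + 1) : ℂ) ^ ((a + a') / N) * (((-1) ^ (N + 1) : ℂ) ^ ((b + b') / N) *
        trace ((P ^ ((a + a') % N)).1 * (Q ^ ((b + b') % N)).1)))‖ ≤
      N * (N * r) + (N * δ + N * δ) := by
    rw [e1, add_sub_assoc, ← mul_sub]
    refine (norm_add_le _ _).trans (add_le_add e2 ?_)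
    rw [norm_mul, hw, one_mul]
    have e5 : trace ((P ^ (a + a')).1 * (Q ^ (b + b')).1) -
        ((-1) ^ (N + 1) : ℂ) ^ ((a + a') / N) * (((-1) ^ (N + 1) : ℂ) ^ ((b + b') / N) *
          trace ((P ^ ((a + a') % N)).1 * (Q ^ ((b + b') % N)).1)) =
        (trace ((P ^ (a + a')).1 * (Q ^ (b + b')).1) -
          ((-1) ^ (N + 1) : ℂ) ^ ((a + a') / N) *
            trace ((P ^ ((a + a') % N)).1 * (Q ^ (b + b')).1)) +
        ((-1) ^ (N + 1) : ℂ) ^ ((a + a') / N) *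
          (trace ((P ^ ((a + a') % N)).1 * (Q ^ (b + b')).1) -
            ((-1) ^ (N + 1) : ℂ) ^ ((b + b') / N) *
              trace ((P ^ ((a + a') % N)).1 * (Q ^ ((b + b') % N)).1)) := by
      ring
    rw [e5]
    refine (norm_add_le _ _).trans (add_le_add e3 ?_)
    rw [norm_mul, hsg, one_mul]
    exact e4
  have hfin : N * (N * r) + (N * δ + N * δ) + s ≤
      (2 * N ^ 3 + 4 * N ^ 3 * (2 * N + 1) ^ N * C₂ + C₂) * l ^ (p₂ + 2) * ss k q U := by
    have f1 : (l : ℝ) ^ 2 ≤ l ^ (p₂ + 2) := pow_le_pow_right₀ hl (by omega)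
    have f2 : (l : ℝ) ^ p₂ ≤ l ^ (p₂ + 2) := pow_le_pow_right₀ hl (by omega)
    have f3 : N * (N * r) ≤ 2 * N ^ 3 * l ^ (p₂ + 2) * ss k q U := by
      have : N * (N * r) = 2 * N ^ 3 * l ^ 2 * ss k q U := by
        rw [hr]
        ring
      rw [this]
      gcongr
    have f4 : s ≤ C₂ * l ^ (p₂ + 2) * ss k q U := by
      rw [hsd]
      gcongr
    have f5 : N * δ + N * δ ≤ 4 * N ^ 3 * (2 * N + 1) ^ N * (C₂ * l ^ (p₂ + 2) * ss k q U) := by
      have : N * δ + N * δ = 4 * N ^ 3 * (2 * N + 1) ^ N * s := by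
        rw [hδd]
        ring
      rw [this]
      gcongr
    linarith
  refine le_trans ?_ hfin
  by_cases hα : α' = ng' α
  · rw [if_pos hα]
    have g1 : a' = (N - a) % N := by
      rw [ha', hα]
      rfl
    have g2 : b' = (N - b) % N := by
      rw [hb', hα]
      rfl
    have g3 : (a + a') % N = 0 := by
      rcases neg_mod hN a haN with ⟨h2, h3⟩ | ⟨h2, h3⟩
      · rw [g1, h3, h2]
        simp
      · rw [g1, h3, Nat.add_sub_of_le haN.le, Nat.mod_self]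
    have g4 : (b + b') % N = 0 := by
      rcases neg_mod hN b hbN with ⟨h2, h3⟩ | ⟨h2, h3⟩
      · rw [g2, h3, h2]
        simp
      · rw [g2, h3, Nat.add_sub_of_le hbN.le, Nat.mod_self]
    have g5 : trace ((P ^ 0).1 * (Q ^ 0).1) = (N : ℂ) := by
      have : (P ^ 0).1 * (Q ^ 0).1 = (1 : Mt N) := by
        rw [pow_zero, pow_zero]
        exact Matrix.mul_one _
      rw [this, trace_one, Fintype.card_fin]
    rw [g3, g4, g5] at hmain
    have g6 : (N : ℂ) * ch N k α = (om N k ^ a') ^ b *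
        (((-1) ^ (N + 1) : ℂ) ^ ((a + a') / N) * (((-1) ^ (N + 1) : ℂ) ^ ((b + b') / N) * N)) := by
      unfold ch
      have g7 : ((ng' α).1 : ℕ) = a' := by rw [ha', hα]
      have g8 : ((ng' α).2 : ℕ) = b' := by rw [hb', hα]
      rw [g7, g8, ← ha, ← hb, pow_mul]
      ring
    rw [g6]
    linarith
  · rw [if_neg hα, sub_zero]
    have g1 : ¬ ((a + a') % N = 0 ∧ (b + b') % N = 0) := by
      rintro ⟨h2, h3⟩
      apply hα
      have h4 : ∀ u v : ℕ, u < N → v < N → (u + v) % N = 0 → v = (N - u) % N := by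
        intro u v hu hv h5
        rcases neg_mod hN u hu with ⟨h6, h7⟩ | ⟨h6, h7⟩
        · rw [h7]
          rw [h6, zero_add, Nat.mod_eq_of_lt hv] at h5
          exact h5
        · rw [h7]
          obtain ⟨m, hm⟩ := Nat.dvd_of_mod_eq_zero h5
          have : m = 1 := by
            have h8 : m < 2 := by
              by_contra h9
              have : N * 2 ≤ N * m := Nat.mul_le_mul_left _ (by omega)
              omega
            have h9 : m ≠ 0 := by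
              rintro rfl
              omega
            omega
          rw [this, mul_one] at hm
          omega
      exact Prod.ext (Fin.ext (h4 a a' haN haN' h2)) (Fin.ext (h4 b b' hbN hbN' h3))
    have g2 := htr _ _ (Nat.mod_lt (a + a') hN) (Nat.mod_lt (b + b') hN) g1
    have g3 : ‖(om N k ^ a') ^ b *
      (((-1) ^ (N + 1) : ℂ) ^ ((a + a') / N) * (((-1) ^ (N + 1) : ℂ) ^ ((b + b') / N) *
        trace ((P ^ ((a + a') % N)).1 * (Q ^ ((b + b') % N)).1)))‖ ≤ s := by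
      rw [norm_mul, hw, one_mul, norm_mul, hsg, one_mul, norm_mul, hsg, one_mul]
      exact g2
    calc ‖trace ((Dr α U x).1 * (Dr α' U x).1)‖ = ‖(trace ((Dr α U x).1 * (Dr α' U x).1) -
        (om N k ^ a') ^ b * (((-1) ^ (N + 1) : ℂ) ^ ((a + a') / N) *
          (((-1) ^ (N + 1) : ℂ) ^ ((b + b') / N) *
            trace ((P ^ ((a + a') % N)).1 * (Q ^ ((b + b') % N)).1)))) +
        (om N k ^ a') ^ b * (((-1) ^ (N + 1) : ℂ) ^ ((a + a') / N) *
          (((-1) ^ (N + 1) : ℂ) ^ ((b + b') / N) *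
            trace ((P ^ ((a + a') % N)).1 * (Q ^ ((b + b') % N)).1)))‖ := by
          rw [sub_add_cancel]
      _ ≤ _ := (norm_add_le _ _).trans (add_le_add hmain g3)

end Run7.h280.QW
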