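import Pool.Agent.Run7.h630.QW.Iface
import Pool.Agent.Run7.h280.QW.W1core

/-!
W1 of the project QW: the phases exist.
-/

set_option autoImplicit false

namespace Run7.h280.QW

open Run7.h630.QC

theorem t_W1 : Run7.h630.QW.S_W1 := by
  intro N k _ hk
  obtain ⟨C, p, hC, h⟩ := core N k hk
  exact ⟨ch N k, fun α => ch_norm k α, fun α => ch_ng k α, C, p, hC, h⟩

end Run7.h280.QW
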